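import Pool.Agent.N912.LC.Stm2

/-!
# Project LC (helper912): equidistribution of `(Ω(d), Ω(e))` modulo `k` (helper717)

The Fourier expansion follows `Pool.Agent.W397.EX.Finj` and `Pool.Agent.W78.EG.Sq1`.
-/

set_option autoImplicit false

namespace Pool.Agent.N717.LC

open Finset Filter
open Pool.Agent.W78.GA (Qd nm)
open Pool.Agent.N912.EP.W78EG
open Pool.Agent.N912.LC

theorem modEq_iff_dvd {k : ℕ} (hk : 1 ≤ k) (x i : ℕ) :
    x ≡ i [MOD k] ↔ k ∣ x + (k - 1) * i := by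
  rw [← Nat.modEq_zero_iff_dvd]
  have h1 : x + (k - 1) * i + i = x + k * i := by
    obtain ⟨m, rfl⟩ : ∃ m, k = m + 1 := ⟨k - 1, by omega⟩
    simp only [Nat.add_sub_cancel]
    ring
  have h2 : x + k * i ≡ x [MOD k] := by
    have : x + k * i ≡ x + 0 [MOD k] :=
      Nat.ModEq.add_left x ((Nat.modEq_zero_iff_dvd).2 (Dvd.intro i rfl))
    exact this
  constructor
  · intro h
    refine Nat.ModEq.add_right_cancel' i ?_
    rw [h1, zero_add]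
    exact h2.trans h
  · intro h
    have h3 := Nat.ModEq.add_right i h
    rw [h1, zero_add] at h3
    exact h2.symm.trans h3

/-- orthogonality -/
theorem orth {k : ℕ} {ζ : ℂ} (hζ : IsPrimitiveRoot ζ k) (y : ℕ) :
    ∑ l ∈ range k, (ζ ^ l) ^ y = if k ∣ y then (k : ℂ) else 0 := by
  have h1 : ∀ l, (ζ ^ l) ^ y = (ζ ^ y) ^ l := fun l => by rw [← pow_mul, ← pow_mul, mul_comm]
  simp only [h1]
  split_ifs with h
  · have h2 : ζ ^ y = 1 := (hζ.pow_eq_one_iff_dvd y).2 h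
    simp [h2]
  · have h2 : ζ ^ y ≠ 1 := fun h3 => h ((hζ.pow_eq_one_iff_dvd y).1 h3)
    rw [geom_sum_eq h2, ← pow_mul, mul_comm y k, pow_mul, hζ.pow_eq_one, one_pow, sub_self,
      zero_div]

theorem ind_eq {k : ℕ} (hk : 1 ≤ k) {ζ : ℂ} (hζ : IsPrimitiveRoot ζ k) (i j x y : ℕ) :
    (if x ≡ i [MOD k] ∧ y ≡ j [MOD k] then (1 : ℂ) else 0) =
      1 / (k : ℂ) ^ 2 * ∑ e ∈ range k ×ˢ range k,
        ((ζ ^ e.1) ^ ((k - 1) * i) * (ζ ^ e.2) ^ ((k - 1) * j)) *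
          ((ζ ^ e.1) ^ x * (ζ ^ e.2) ^ y) := by
  have hk0 : (k : ℂ) ≠ 0 := by
    have : k ≠ 0 := by omega
    exact_mod_cast this
  have h1 : ∑ e ∈ range k ×ˢ range k,
        ((ζ ^ e.1) ^ ((k - 1) * i) * (ζ ^ e.2) ^ ((k - 1) * j)) *
          ((ζ ^ e.1) ^ x * (ζ ^ e.2) ^ y) =
      (∑ l ∈ range k, (ζ ^ l) ^ (x + (k - 1) * i)) *
        (∑ l ∈ range k, (ζ ^ l) ^ (y + (k - 1) * j)) := by
    rw [Finset.sum_mul_sum, ← Finset.sum_product']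
    refine Finset.sum_congr rfl fun e _ => ?_
    rw [pow_add (ζ ^ e.1), pow_add (ζ ^ e.2)]
    ring
  rw [h1, orth hζ, orth hζ]
  have hx' := modEq_iff_dvd hk x i
  have hy' := modEq_iff_dvd hk y j
  by_cases hx : x ≡ i [MOD k]
  · by_cases hy : y ≡ j [MOD k]
    · rw [if_pos ⟨hx, hy⟩, if_pos (hx'.1 hx), if_pos (hy'.1 hy)]
      field_simp
    · rw [if_neg (fun h => hy h.2), if_neg (fun h => hy (hy'.2 h)), mul_zero, mul_zero]
  · rw [if_neg (fun h => hx h.1), if_neg (fun h => hx (hx'.2 h)), zero_mul, mul_zero]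

/-- the character sums over a finite set of triples -/
noncomputable def UU (F : Finset (ℕ × ℕ × ℕ)) (b₁ b₂ : ℂ) : ℂ :=
  ∑ p ∈ F, b₁ ^ ArithmeticFunction.cardFactors p.1 * b₂ ^ ArithmeticFunction.cardFactors p.2.1

open scoped Classical in
theorem dev_le {k : ℕ} (hk : 1 ≤ k) {ζ : ℂ} (hζ : IsPrimitiveRoot ζ k) (i j : ℕ)
    (F : Finset (ℕ × ℕ × ℕ)) :
    |(((F.filter (fun p => ArithmeticFunction.cardFactors p.1 ≡ i [MOD k] ∧
      ArithmeticFunction.cardFactors p.2.1 ≡ j [MOD k])).card : ℝ) -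
      1 / (k : ℝ) ^ 2 * (F.card : ℝ))| ≤ ∑ e ∈ (range k ×ˢ range k).erase (0, 0),
      ‖UU F (ζ ^ e.1) (ζ ^ e.2)‖ := by
  obtain ⟨cc, hc⟩ : ∃ cc : ℕ × ℕ → ℂ, cc = fun e =>
      (ζ ^ e.1) ^ ((k - 1) * i) * (ζ ^ e.2) ^ ((k - 1) * j) := ⟨_, rfl⟩
  have hn : ‖ζ‖ = 1 := hζ.norm'_eq_one (by omega)
  have hcn : ∀ e, ‖cc e‖ = 1 := by
    intro e
    rw [hc]
    simp only [norm_mul, norm_pow, hn, one_pow, mul_one]
  have key : ((((F.filter (fun p => ArithmeticFunction.cardFactors p.1 ≡ i [MOD k] ∧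
      ArithmeticFunction.cardFactors p.2.1 ≡ j [MOD k])).card : ℝ) : ℝ) : ℂ) =
      1 / (k : ℂ) ^ 2 * ∑ e ∈ range k ×ˢ range k, cc e * UU F (ζ ^ e.1) (ζ ^ e.2) := by
    have h1 : ∑ e ∈ range k ×ˢ range k, cc e * UU F (ζ ^ e.1) (ζ ^ e.2) =
        ∑ p ∈ F, ∑ e ∈ range k ×ˢ range k, cc e *
          ((ζ ^ e.1) ^ ArithmeticFunction.cardFactors p.1 *
            (ζ ^ e.2) ^ ArithmeticFunction.cardFactors p.2.1) := by
      rw [Finset.sum_comm]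
      refine Finset.sum_congr rfl fun e _ => ?_
      rw [UU, Finset.mul_sum]
    rw [h1, Finset.mul_sum, Finset.card_filter, Nat.cast_sum, Complex.ofReal_sum]
    refine Finset.sum_congr rfl fun p _ => ?_
    rw [hc, ← ind_eq hk hζ]
    by_cases h2 : ArithmeticFunction.cardFactors p.1 ≡ i [MOD k] ∧
      ArithmeticFunction.cardFactors p.2.1 ≡ j [MOD k]
    · rw [if_pos h2, if_pos h2]
      simp
    · rw [if_neg h2, if_neg h2]
      simp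
  have h0 : (((F.card : ℝ) : ℝ) : ℂ) = UU F (ζ ^ 0) (ζ ^ 0) := by
    rw [UU]
    simp
  have h00 : ((0, 0) : ℕ × ℕ) ∈ range k ×ˢ range k := by
    rw [Finset.mem_product]
    exact ⟨Finset.mem_range.2 (by omega), Finset.mem_range.2 (by omega)⟩
  have hc0 : cc (0, 0) = 1 := by rw [hc]; simp
  have hk2 : (1 : ℝ) ≤ (k : ℝ) ^ 2 := by
    have : (1 : ℝ) ≤ k := by exact_mod_cast hk
    nlinarith
  rw [← Real.norm_eq_abs, ← Complex.norm_real, Complex.ofReal_sub, key, Complex.ofReal_mul, h0]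
  have h3 : 1 / (k : ℂ) ^ 2 * ∑ e ∈ range k ×ˢ range k, cc e * UU F (ζ ^ e.1) (ζ ^ e.2) -
      ((1 / (k : ℝ) ^ 2 : ℝ) : ℂ) * UU F (ζ ^ 0) (ζ ^ 0) =
      1 / (k : ℂ) ^ 2 * ∑ e ∈ (range k ×ˢ range k).erase (0, 0),
        cc e * UU F (ζ ^ e.1) (ζ ^ e.2) := by
    rw [← Finset.add_sum_erase _ _ h00, hc0, one_mul]
    push_cast
    ring
  rw [h3, norm_mul]
  have h4 : ‖(1 : ℂ) / (k : ℂ) ^ 2‖ ≤ 1 := by
    rw [norm_div, norm_one, norm_pow, Complex.norm_natCast]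
    exact (div_le_one (by linarith)).2 hk2
  calc ‖(1 : ℂ) / (k : ℂ) ^ 2‖ * ‖∑ e ∈ (range k ×ˢ range k).erase (0, 0),
        cc e * UU F (ζ ^ e.1) (ζ ^ e.2)‖
      ≤ 1 * ‖∑ e ∈ (range k ×ˢ range k).erase (0, 0),
        cc e * UU F (ζ ^ e.1) (ζ ^ e.2)‖ := mul_le_mul_of_nonneg_right h4 (norm_nonneg _)
    _ ≤ ∑ e ∈ (range k ×ˢ range k).erase (0, 0), ‖UU F (ζ ^ e.1) (ζ ^ e.2)‖ := by
        rw [one_mul]
        refine (norm_sum_le _ _).trans (Finset.sum_le_sum fun e _ => ?_)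
        rw [norm_mul, hcn, one_mul]

theorem cmn {k : ℕ} (hk : 1 ≤ k) {b : ℂ} (hb : b ^ k = 1) :
    CMN k (fun n => b ^ ArithmeticFunction.cardFactors n) where
  pos := hk
  mul := fun m n hm hn => by
    rw [ArithmeticFunction.cardFactors_mul hm hn, pow_add]
  pow := fun n _ => by
    rw [← pow_mul, mul_comm, pow_mul, hb, one_pow]

theorem gn_bO {t c : ℤ} (b : ℂ) :
    (gn (fun n => b ^ ArithmeticFunction.cardFactors n) : Qd t c → ℂ) = bO b := by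
  funext z
  unfold gn bO
  split_ifs with h
  · rw [h]
    simp
  · rfl

theorem TQ_finite {A B C : ℤ} (hA : 0 < A) (s₁ s₂ s₃ s₄ X : ℝ) :
    (TQ A B C s₁ s₂ s₃ s₄ X).Finite := by
  have hsub : TQ A B C s₁ s₂ s₃ s₄ X ⊆
      ((range (⌊s₂ * X⌋₊ + 1) ×ˢ range (⌊s₄ * X⌋₊ + 1) ×ˢ
        range (⌊s₂ * X⌋₊ * ⌊s₄ * X⌋₊ + B.natAbs + C.natAbs + 1) : Finset (ℕ × ℕ × ℕ)) :
          Set (ℕ × ℕ × ℕ)) := by
    rintro ⟨d, e, n⟩ ⟨h1, -, h2, -, h3⟩
    simp only at h1 h2 h3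
    have h4 : d ≤ ⌊s₂ * X⌋₊ := Nat.le_floor h2
    have h5 : e ≤ ⌊s₄ * X⌋₊ := Nat.le_floor h3
    have h6 : d * e ≤ ⌊s₂ * X⌋₊ * ⌊s₄ * X⌋₊ := Nat.mul_le_mul h4 h5
    set D := ⌊s₂ * X⌋₊ * ⌊s₄ * X⌋₊
    rw [Finset.mem_coe, Finset.mem_product, Finset.mem_product, Finset.mem_range,
      Finset.mem_range, Finset.mem_range]
    refine ⟨Nat.lt_succ_of_le h4, Nat.lt_succ_of_le h5, ?_⟩
    by_contra hn
    simp only [not_lt] at hn
    have h7 : (D : ℤ) + |B| + |C| + 1 ≤ n := by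
      have : ((D + B.natAbs + C.natAbs + 1 : ℕ) : ℤ) ≤ n := by exact_mod_cast hn
      push_cast at this
      exact this
    have h8 : ((d : ℤ) * e) ≤ D := by exact_mod_cast h6
    have hn0 : (0 : ℤ) ≤ n := Int.natCast_nonneg n
    have hD0 : (0 : ℤ) ≤ D := Int.natCast_nonneg D
    have hB := neg_abs_le B
    have hC := neg_abs_le C
    have hB0 := abs_nonneg B
    have hC0 := abs_nonneg C
    have h9 : (n : ℤ) ^ 2 ≤ A * (n : ℤ) ^ 2 := le_mul_of_one_le_left (sq_nonneg _) hA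
    have h10 : -|B| * n ≤ B * n := mul_le_mul_of_nonneg_right hB hn0
    have h11 : (n : ℤ) * ((D : ℤ) + |B| + |C| + 1) ≤ n * n := mul_le_mul_of_nonneg_left h7 hn0
    have hn1 : (1 : ℤ) ≤ n := by linarith
    have h12 : (D : ℤ) + |C| + 1 ≤ n * ((D : ℤ) + |C| + 1) :=
      le_mul_of_one_le_left (by linarith) hn1
    nlinarith
  exact (Finset.finite_toSet _).subset hsub

theorem fino (h2 : S_CORE2)
    (h5 : ∀ t c : ℤ, t ^ 2 < 4 * c → Pool.Agent.N912.ED.W78EG.S_PNTX t c) : S_FINO := by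
  classical
  intro A B C hA hD q u r r' k i j hq hk s₁ s₂ s₃ s₄ hs1 hs2 hs3 hs4 ε hε
  -- the order
  obtain ⟨t, c, ht, htc, hBD⟩ : ∃ t c : ℤ, (t = 0 ∨ t = 1) ∧ t ^ 2 < 4 * c ∧
      B ^ 2 - 4 * A * C = t ^ 2 - 4 * c := by
    have hB : B = 2 * (B / 2) + B % 2 := (Int.mul_ediv_add_emod B 2).symm
    have hB2 : B % 2 = 0 ∨ B % 2 = 1 := Int.emod_two_eq_zero_or_one B
    refine ⟨B % 2, -(B / 2) ^ 2 - (B / 2) * (B % 2) + A * C, hB2, ?_, ?_⟩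
    · set b := B / 2
      set s := B % 2
      rw [hB] at hD
      nlinarith
    · set b := B / 2
      set s := B % 2
      rw [hB]
      ring
  obtain ⟨ζ, hζ⟩ : ∃ ζ : ℂ, IsPrimitiveRoot ζ k :=
    ⟨_, Complex.isPrimitiveRoot_exp k (by omega)⟩
  have hζk : ∀ l, (ζ ^ l) ^ k = 1 := fun l => by
    rw [← pow_mul, mul_comm, pow_mul, hζ.pow_eq_one, one_pow]
  have : NeZero q := ⟨by omega⟩
  obtain ⟨w, hw⟩ : ∃ w : ZMod q → ZMod q → ZMod q → ℂ, w = fun a b d =>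
      if a = (u : ZMod q) ∧ b = (r : ZMod q) ∧ d = (r' : ZMod q) then 1 else 0 := ⟨_, rfl⟩
  have hfin : ∀ X : ℝ, (TQ A B C s₁ s₂ s₃ s₄ X).Finite := TQ_finite hA s₁ s₂ s₃ s₄
  obtain ⟨F, hF⟩ : ∃ F : ℝ → Finset (ℕ × ℕ × ℕ), F = fun X => (hfin X).toFinset.filter
      (fun y => y.2.2 ≡ u [MOD q] ∧ y.1 ≡ r [MOD q] ∧ y.2.1 ≡ r' [MOD q]) := ⟨_, rfl⟩
  have hUU : ∀ (X : ℝ) (b₁ b₂ : ℂ), ∑ᶠ y ∈ TQ A B C s₁ s₂ s₃ s₄ X,
      w y.2.2 y.1 y.2.1 * (b₁ ^ ArithmeticFunction.cardFactors y.1 *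
        b₂ ^ ArithmeticFunction.cardFactors y.2.1) = UU (F X) b₁ b₂ := by
    intro X b₁ b₂
    rw [finsum_mem_eq_finite_toFinset_sum _ (hfin X), UU, hF, Finset.sum_filter]
    refine Finset.sum_congr rfl fun y _ => ?_
    rw [hw]
    simp only [ZMod.natCast_eq_natCast_iff]
    split_ifs
    · rw [one_mul]
    · rw [zero_mul]
  have hTO : ∀ (X : ℝ) (k i j : ℕ), Set.ncard (TO A B C q u r r' k i j s₁ s₂ s₃ s₄ X) =
      ((F X).filter (fun p => ArithmeticFunction.cardFactors p.1 ≡ i [MOD k] ∧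
      ArithmeticFunction.cardFactors p.2.1 ≡ j [MOD k])).card := by
    intro X k i j
    rw [← Set.ncard_coe_finset]
    congr 1
    ext y
    rw [hF]
    simp only [TO, Set.mem_ofPred_eq, Finset.coe_filter, Finset.mem_filter,
      Set.Finite.mem_toFinset]
    tauto
  set E := (range k ×ˢ range k).erase ((0, 0) : ℕ × ℕ) with hE
  set ε' : ℝ := ε / (E.card + 1) with hε'
  have hε'0 : 0 < ε' := by positivity
  have hN0 : ∀ e : ℕ × ℕ, ∃ N₀ : ℕ, e ∈ E → ∀ N : ℕ, N₀ ≤ N →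
      ∑ X ∈ Icc 1 N, 1 / (X : ℝ) ^ 2 * ‖UU (F X) (ζ ^ e.1) (ζ ^ e.2)‖ ≤
        ε' * Real.log N := by
    intro e
    by_cases he : e ∈ E
    · obtain ⟨he1, he2⟩ := Finset.mem_erase.1 he
      obtain ⟨he3, he4⟩ := Finset.mem_product.1 he2
      have hne : ζ ^ e.1 ≠ 1 ∨ ζ ^ e.2 ≠ 1 := by
        by_contra hno
        push Not at hno
        apply he1
        have e1 : e.1 = 0 := by
          by_contra h5
          exact hζ.pow_ne_one_of_pos_of_lt h5 (Finset.mem_range.1 he3) hno.1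
        have e2 : e.2 = 0 := by
          by_contra h5
          exact hζ.pow_ne_one_of_pos_of_lt h5 (Finset.mem_range.1 he4) hno.2
        exact Prod.ext e1 e2
      have hA : Apd k (gn (fun n => (ζ ^ e.1) ^ ArithmeticFunction.cardFactors n) :
            Qd t c → ℂ) ∨
          Apd k (gn (fun n => (ζ ^ e.2) ^ ArithmeticFunction.cardFactors n) : Qd t c → ℂ) := by
        rw [gn_bO, gn_bO]
        exact hne.imp (fun h1 => h5 t c htc k (ζ ^ e.1) hk (hζk _) h1)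
          (fun h1 => h5 t c htc k (ζ ^ e.2) hk (hζk _) h1)
      obtain ⟨N₀, hN₀⟩ := h2 A B C t c ‹0 < A› ht htc hBD k _ _ (cmn hk (hζk e.1))
        (cmn hk (hζk e.2)) hA q hq w s₁ s₂ s₃ s₄ hs1 hs2 hs3 hs4 ε' hε'0
      refine ⟨N₀, fun _ N hN => ?_⟩
      have h6 := hN₀ N hN
      simp only [hUU] at h6
      exact h6
    · exact ⟨0, fun h' => absurd h' he⟩
  choose N₀ hN₀ using hN0
  refine ⟨E.sup N₀, fun N hN => ?_⟩
  have hlog : 0 ≤ Real.log N := Real.log_natCast_nonneg N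
  calc ∑ X ∈ Icc 1 N, 1 / (X : ℝ) ^ 2 *
      |(Set.ncard (TO A B C q u r r' k i j s₁ s₂ s₃ s₄ X) : ℝ) -
        1 / (k : ℝ) ^ 2 * (Set.ncard (TO A B C q u r r' 1 0 0 s₁ s₂ s₃ s₄ X) : ℝ)|
      ≤ ∑ X ∈ Icc 1 N, 1 / (X : ℝ) ^ 2 * ∑ e ∈ E, ‖UU (F X) (ζ ^ e.1) (ζ ^ e.2)‖ := by
        refine Finset.sum_le_sum fun X _ => mul_le_mul_of_nonneg_left ?_ (by positivity)
        rw [hTO, hTO]
        have h6 : (F X).filter (fun p => ArithmeticFunction.cardFactors p.1 ≡ 0 [MOD 1] ∧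
            ArithmeticFunction.cardFactors p.2.1 ≡ 0 [MOD 1]) = F X := by
          rw [Finset.filter_true_of_mem]
          intro p _
          exact ⟨Nat.modEq_one, Nat.modEq_one⟩
        rw [h6]
        exact dev_le hk hζ i j (F X)
    _ = ∑ e ∈ E, ∑ X ∈ Icc 1 N, 1 / (X : ℝ) ^ 2 * ‖UU (F X) (ζ ^ e.1) (ζ ^ e.2)‖ := by
        simp_rw [Finset.mul_sum]
        rw [Finset.sum_comm]
    _ ≤ ∑ _e ∈ E, ε' * Real.log N :=
        Finset.sum_le_sum fun e he => hN₀ e he N ((Finset.le_sup he).trans hN)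
    _ = E.card * (ε' * Real.log N) := by rw [Finset.sum_const, nsmul_eq_mul]
    _ ≤ ε * Real.log N := by
        have h7 : (E.card : ℝ) * ε' ≤ ε := by
          rw [hε', mul_div_assoc', div_le_iff₀ (by positivity)]
          nlinarith
        calc (E.card : ℝ) * (ε' * Real.log N) = (E.card * ε') * Real.log N := by ring
          _ ≤ ε * Real.log N := mul_le_mul_of_nonneg_right h7 hlog

end Pool.Agent.N717.LC
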